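import Pool.Agent.W23.DC.All

/-!
# Primes with indices in an arbitrary dense set, and almost primes: boundedly many exceptions

The question asks for representations `2 n = p + q` with primes `p`, `q` and prime index `π(p)`. Let
`δ, ε > 0`. For every `X ≥ 2` and EVERY set `I` of indices `k` with `p_k ≤ X` (`p_k` is the `k`-th
prime) which has at least `δ X / log X` elements, for instance the indices without prime factors
`≤ z`, all but at most `K` of the integers `n`, `|n| ≤ 2 X`, have at least `c |I|` representations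
`n = p_k + m s` (or `n = p_k - m s`) with `k ∈ I`, `1 ≤ m ≤ X ^ ε` and `s > 1` a product of at most
two primes, all larger than `X ^ (1 / 7)`; here `c > 0` and `K` depend on `δ` and `ε` only.

The proof is the theorem `dense_almost_prime` of `Pool/Agent/W23/DC/All` on dense sets of primes.
-/

set_option autoImplicit false

open Finset Filter

namespace Pool.Agent.Results.MP_5d7b92_nt.DenseIndexSets

/-- The `k`-th prime, `k ≥ 1`. -/
noncomputable def pr (k : ℕ) : ℕ := Nat.nth Nat.Prime (k - 1)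

/-- `n ≠ p_k` and `|n - p_k| = m s` with `1 ≤ m ≤ X ^ ε` and `s > 1` with at most two prime factors,
counted with multiplicity, all of them `> X ^ (1 / 7)`. -/
def Rep (X : ℕ) (ε : ℝ) (n : ℤ) (k : ℕ) : Prop :=
  ∃ m s : ℕ, (n - pr k).natAbs = m * s ∧ 1 ≤ m ∧ (m : ℝ) ≤ (X : ℝ) ^ ε ∧ 1 < s ∧
    s.primeFactorsList.length ≤ 2 ∧ ∀ q ∈ s.primeFactors, (X : ℝ) ^ (1 / 7 : ℝ) < q

theorem pr_inj : Set.InjOn pr {k | 1 ≤ k} := by
  intro k hk l hl h
  have h1 : k - 1 = l - 1 := Nat.nth_injective Nat.infinite_setOfPred_prime h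
  have h2 : 1 ≤ k := hk
  have h3 : 1 ≤ l := hl
  omega

open Classical in
/-- **Dense sets of indices.** For all but at most `K` integers `n`, `|n| ≤ 2 X`, the number of
`k ∈ I` with `Rep X ε n k` is at least `c |I|`. -/
theorem result (δ ε : ℝ) (hδ : 0 < δ) (hε : 0 < ε) :
    ∃ (c : ℝ) (K : ℕ), 0 < c ∧ ∀ X : ℕ, 2 ≤ X → ∀ I : Finset ℕ,
      (∀ k ∈ I, 1 ≤ k ∧ pr k ≤ X) → δ * X / Real.log X ≤ I.card →
      ((Icc (-(2 * X : ℤ)) (2 * X)).filter (fun n : ℤ =>
        ((I.filter (fun k : ℕ => Rep X ε n k)).card : ℝ) < c * I.card)).card ≤ K := by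
  obtain ⟨c, K, hc, H⟩ := Pool.Agent.W23.DC.dense_almost_prime δ ε hδ hε
  have hlim : ∀ᶠ x : ℝ in atTop, Real.log x ≤ c * δ / 2 * x := by
    have h1 := Real.isLittleO_log_id_atTop.bound (show (0 : ℝ) < c * δ / 2 by positivity)
    filter_upwards [h1, eventually_ge_atTop (1 : ℝ)] with x h2 h3
    rw [Real.norm_eq_abs, Real.norm_eq_abs, abs_of_nonneg (Real.log_nonneg h3), id,
      abs_of_nonneg (by linarith)] at h2
    exact h2
  obtain ⟨X0, hX0⟩ := eventually_atTop.1 (tendsto_natCast_atTop_atTop.eventually hlim)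
  refine ⟨c / 2, K + (4 * X0 + 1), by positivity, ?_⟩
  intro X hX I hI hIc
  have hXR : (2 : ℝ) ≤ X := by exact_mod_cast hX
  have hL : 0 < Real.log X := Real.log_pos (by linarith)
  rcases Nat.lt_or_ge X X0 with hlt | hge
  · have h2 := Finset.card_filter_le (Icc (-(2 * X : ℤ)) (2 * X)) (fun n : ℤ =>
        ((I.filter (fun k : ℕ => Rep X ε n k)).card : ℝ) < c / 2 * I.card)
    rw [Int.card_Icc] at h2
    omega
  · set A : Finset ℕ := I.image pr with hAdef
    have hinj : Set.InjOn pr (I : Set ℕ) := fun k hk l hl h =>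
      pr_inj (hI k (mem_coe.1 hk)).1 (hI l (mem_coe.1 hl)).1 h
    have hAc' : A.card = I.card := card_image_of_injOn hinj
    have hA : ∀ p ∈ A, p.Prime ∧ p ≤ X := by
      intro p hp
      obtain ⟨k, hk, rfl⟩ := mem_image.1 hp
      exact ⟨Nat.prime_nth_prime _, (hI k hk).2⟩
    have hAc : δ * X / Real.log X ≤ A.card := by rw [hAc']; exact hIc
    have h1 := H X hX A hA hAc
    have h2 : 1 ≤ c / 2 * I.card := by
      have h3 := hX0 X hge
      have h4 : 1 ≤ c / 2 * (δ * X / Real.log X) := by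
        rw [← mul_div_assoc, le_div_iff₀ hL]
        calc 1 * Real.log X = Real.log X := one_mul _
          _ ≤ c * δ / 2 * X := h3
          _ = c / 2 * (δ * X) := by ring
      refine h4.trans ?_
      gcongr
    refine le_trans (le_trans (card_le_card ?_) h1) (Nat.le_add_right _ _)
    intro n hn
    rw [mem_filter] at hn ⊢
    refine ⟨hn.1, ?_⟩
    have h5 : A.filter (fun p : ℕ => ∃ m s : ℕ, (n - p).natAbs = m * s ∧ (m : ℝ) ≤ (X : ℝ) ^ ε ∧
        1 < s ∧ s.primeFactorsList.length ≤ 2 ∧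
          ∀ q ∈ s.primeFactors, (X : ℝ) ^ (1 / 7 : ℝ) < q) ⊆
        insert n.toNat ((I.filter (fun k : ℕ => Rep X ε n k)).image pr) := by
      intro p hp
      rw [mem_filter] at hp
      obtain ⟨hpA, m, s, h6, h7, h8, h9, h10⟩ := hp
      obtain ⟨k, hk, rfl⟩ := mem_image.1 hpA
      rw [mem_insert]
      by_cases hnp : (pr k : ℤ) = n
      · left
        omega
      · right
        rw [mem_image]
        refine ⟨k, ?_, rfl⟩
        rw [mem_filter]
        refine ⟨hk, m, s, h6, ?_, h7, h8, h9, h10⟩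
        rcases Nat.eq_zero_or_pos m with h0 | h0
        · exfalso
          rw [h0, zero_mul, Int.natAbs_eq_zero] at h6
          exact hnp (by linarith)
        · exact h0
    have h6 := (card_le_card h5).trans ((card_insert_le _ _).trans
      (Nat.add_le_add_right card_image_le 1))
    have h7 : ((A.filter (fun p : ℕ => ∃ m s : ℕ, (n - p).natAbs = m * s ∧
        (m : ℝ) ≤ (X : ℝ) ^ ε ∧ 1 < s ∧ s.primeFactorsList.length ≤ 2 ∧
          ∀ q ∈ s.primeFactors, (X : ℝ) ^ (1 / 7 : ℝ) < q)).card : ℝ) ≤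
        (I.filter (fun k : ℕ => Rep X ε n k)).card + 1 := by exact_mod_cast h6
    have h8 := hn.2
    rw [hAc']
    linarith

end Pool.Agent.Results.MP_5d7b92_nt.DenseIndexSets
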