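import Pool.Agent.R498.MP.Gold

set_option autoImplicit false

/-!
# Goldbach representations with an almost prime and a prime with index in a residue class
-/

namespace Pool.Agent.Results.MP_5d7b92_nt.IndexClasses

open Filter

/-- `n` has at most `r` prime factors, counted with multiplicity, all of them at least `w`. -/
def AlmostPrime (r : ℕ) (w : ℝ) (n : ℕ) : Prop :=
  n.primeFactorsList.length ≤ r ∧ ∀ q : ℕ, q.Prime → q ∣ n → w ≤ q

/-- The `j`-th prime: `pr 1 = 2`, `pr 2 = 3`, and so on. -/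
noncomputable def pr (j : ℕ) : ℕ := Nat.nth Nat.Prime (j - 1)

/-- **Every large `2 n` is `p` plus an almost prime with `π(p)` in any residue class.** Let `q` be squarefree,
`u ≥ 1` and `r ≥ 0`. There are `C` and `δ > 0` such that for every `A` there is an `R` such that, for every `b`,
the following holds for all large `n`, all `N` with `(2 n) ^ (1 / A) ≤ N < n` and all `c` for which
`c (2 n - c)` is coprime to `q` (for instance `q = 1`). There is a `t ≥ 1` such that the `r + 1` primes `p_j`,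
`j = π(p_j) = u t + b, u (t + 1) + b, ..., u (t + r) + b`, lie in `(N, 2 N]`, in an interval of length at
most `C`, they are all `≡ c` modulo `q`, and for each of them, `p` say, `2 n - p` has at most `R` prime
factors, all of them at least `N ^ δ`. -/
theorem result (q : ℕ) (hq : Squarefree q) (u r : ℕ) (hu : 0 < u) : ∃ (C : ℕ) (δ : ℝ), 0 < δ ∧
    ∀ A : ℕ, ∃ R : ℕ, ∀ b : ℕ, ∀ᶠ n : ℕ in atTop, ∀ N : ℕ, 2 * n ≤ N ^ A → N < n →
      ∀ c : ℕ, IsCoprime ((c : ℤ) * (2 * n - c)) (q : ℤ) →
      ∃ t : ℕ, 0 < t ∧ N < pr (u * t + b) ∧ pr (u * (t + r) + b) ≤ 2 * N ∧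
        pr (u * (t + r) + b) ≤ pr (u * t + b) + C ∧
        ∀ i ≤ r, pr (u * (t + i) + b) ≡ c [MOD q] ∧
          AlmostPrime R ((N : ℝ) ^ δ) (2 * n - pr (u * (t + i) + b)) := by
  obtain ⟨C, δ, hδ, hmain⟩ := Pool.Agent.R498.MP.gold_indexM q hq u r hu
  refine ⟨C, δ, hδ, fun A => ?_⟩
  obtain ⟨R, hR⟩ := hmain A
  refine ⟨R, fun b => ?_⟩
  obtain ⟨M₀, hM₀⟩ := eventually_atTop.1 (hR b)
  filter_upwards [eventually_ge_atTop M₀] with n hn
  intro N h1 h2 c hc
  exact hM₀ (2 * n) (by omega) N h1 (even_two_mul n) (by omega) c (by push_cast; exact hc)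

end Pool.Agent.Results.MP_5d7b92_nt.IndexClasses
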