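import Pool.Agent.W23.SG.All
import Pool.Agent.TH665.GP.F1

/-!
# Linear equations `n = m p ± s` with a prime-indexed prime `p` and an almost prime `s`

The prime-indexed primes up to `X` (the primes `p ≤ X` for which `π(p)` is prime) are of the order of
magnitude `X / (log X) ^ 2`. We prove: for all but `C log X` of the pairs `(n, m)` of coprime
integers with `|n| ≤ X ^ (4 / 3)` and `1 ≤ m ≤ X ^ (1 / 3)` there are at least `c X / (log X) ^ 2`
prime-indexed primes `p ≤ X`, even in a prescribed subset of positive relative density, for which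
`|n - m p|` is an almost prime: a product `k s`, where all prime factors of `k` are `< X ^ ε` and `s`
has at most three prime factors, all `≥ X ^ (1 / 8)`.

The proof is the theorem `linear_forms` of `Pool/Agent/W23/SG/All` on arbitrary sparse sets of
primes, together with the lower bound for the number of the prime-indexed primes of
`Pool/Agent/TH665/GP/F1`.
-/

set_option autoImplicit false

open Finset Filter

namespace Pool.Agent.Results.MP_5d7b92_nt.LinearEquations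

/-- The prime-indexed primes up to `X`: the primes `p ≤ X` with `π(p)` prime. -/
noncomputable def indexed (X : ℕ) : Finset ℕ :=
  (range (X + 1)).filter (fun p => p.Prime ∧ (Nat.primeCounting p).Prime)

/-- `n - m p ≠ 0` and `|n - m p| = k s`, where all prime factors of `k` are `< X ^ ε` and `s` has at
most three prime factors, counted with multiplicity, all of them `≥ X ^ (1 / 8)`. -/
def Rep (X : ℕ) (ε : ℝ) (n : ℤ) (m p : ℕ) : Prop :=
  n - m * p ≠ 0 ∧ ∃ k s : ℕ, (n - m * p).natAbs = k * s ∧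
    (∀ l : ℕ, l.Prime → l ∣ k → (l : ℝ) < (X : ℝ) ^ ε) ∧
    s.primeFactorsList.length ≤ 3 ∧ ∀ l ∈ s.primeFactors, (X : ℝ) ^ (1 / 8 : ℝ) ≤ l

theorem card_lower : ∃ c : ℝ, 0 < c ∧ ∃ y0 : ℕ, ∀ y : ℕ, y0 ≤ y →
    c * y ≤ (indexed y).card * Real.log y ^ 2 := by
  classical
  obtain ⟨c, hc, y0, h⟩ := Pool.Agent.TH665.GP.density 1
  refine ⟨c, hc, y0, fun y hy => ?_⟩
  obtain ⟨S, hS1, hS2, hS3⟩ := h y hy
  have hsub : S ⊆ indexed y := by
    intro p hp
    unfold indexed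
    rw [mem_filter, mem_range]
    have h0 := hS2 p hp 0 (by norm_num)
    have h1 := hS2 p hp 1 le_rfl
    rw [Function.iterate_zero, id] at h0
    rw [Function.iterate_one] at h1
    exact ⟨by have := (mem_Icc.1 (hS1 hp)).2; omega, h0, h1⟩
  have h1 : (S.card : ℝ) ≤ (indexed y).card := by exact_mod_cast card_le_card hsub
  exact hS3.trans (mul_le_mul_of_nonneg_right h1 (sq_nonneg _))

theorem indexed_prime {X p : ℕ} (h : p ∈ indexed X) : p.Prime ∧ p ≤ X := by
  unfold indexed at h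
  rw [mem_filter, mem_range] at h
  exact ⟨h.2.1, by omega⟩

open Classical in
/-- arbitrary sets of primes -/
theorem arbitrary (ε : ℝ) (hε : 0 < ε) :
    ∃ c C η : ℝ, 0 < c ∧ 0 < η ∧ ∀ X : ℕ, 2 ≤ X → ∀ Q : Finset ℕ,
      (∀ q ∈ Q, q.Prime ∧ q ≤ X) → (X : ℝ) ^ (1 - η) ≤ Q.card → ∀ E : Finset (ℤ × ℕ),
      (∀ P ∈ E, Int.gcd P.1 P.2 = 1 ∧ |(P.1 : ℝ)| ≤ (X : ℝ) ^ (4 / 3 : ℝ) ∧ 1 ≤ P.2 ∧
        (P.2 : ℝ) ≤ (X : ℝ) ^ (1 / 3 : ℝ) ∧
        ((Q.filter (fun q : ℕ => Rep X ε P.1 P.2 q)).card : ℝ) < c * Q.card) →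
      (E.card : ℝ) ≤ C * (X / (Q.card * Real.log X)) := by
  obtain ⟨c, C, η, hc, hη, H⟩ := Pool.Agent.W23.SG.linear_forms ε hε
  refine ⟨c, C, η, hc, hη, fun X hX Q hQ hQc E hE => ?_⟩
  have hinj : Function.Injective (fun P : ℤ × ℕ => (-P.1, P.2)) := by
    intro P P' h
    simp only [Prod.mk.injEq, neg_inj] at h
    exact Prod.ext h.1 h.2
  have h1 := H X hX Q hQ hQc (E.image (fun P : ℤ × ℕ => (-P.1, P.2))) ?_
  · rwa [card_image_of_injective _ hinj] at h1
  · intro L hL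
    obtain ⟨P, hP, rfl⟩ := mem_image.1 hL
    obtain ⟨h2, h3, h4, h5, h6⟩ := hE P hP
    refine ⟨by simpa using h2, by simpa using h3, h4, h5, lt_of_le_of_lt ?_ h6⟩
    have hsub : (Q.filter (fun q : ℕ => -P.1 + (P.2 : ℤ) * q ≠ 0 ∧
        ∃ m s : ℕ, (-P.1 + (P.2 : ℤ) * q).natAbs = m * s ∧
          (∀ l : ℕ, l.Prime → l ∣ m → (l : ℝ) < (X : ℝ) ^ ε) ∧
          s.primeFactorsList.length ≤ 3 ∧
          ∀ l ∈ s.primeFactors, (X : ℝ) ^ (1 / 8 : ℝ) ≤ l)) ⊆
        Q.filter (fun q : ℕ => Rep X ε P.1 P.2 q) := by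
      intro q hq
      rw [mem_filter] at hq ⊢
      obtain ⟨hqQ, h7, k, s, h8, h9⟩ := hq
      refine ⟨hqQ, ?_, k, s, ?_, h9⟩
      · intro h0
        apply h7
        linarith
      · rw [← h8, ← Int.natAbs_neg]
        congr 1
        ring
    exact_mod_cast card_le_card hsub

open Classical in
/-- **Linear equations with prime-indexed primes.** For all `δ > 0`, `ε > 0` there are `c > 0`, `C`
such that for all `X ≥ 2` and every subset `A` of the prime-indexed primes up to `X` of relative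
density at least `δ`: the number of the pairs `(n, m)` with `gcd(n, m) = 1`, `|n| ≤ X ^ (4 / 3)`,
`1 ≤ m ≤ X ^ (1 / 3)` for which fewer than `c X / (log X) ^ 2` elements `p` of `A` satisfy
`Rep X ε n m p` is at most `C log X`. -/
theorem result (δ ε : ℝ) (hδ : 0 < δ) (hε : 0 < ε) :
    ∃ c C : ℝ, 0 < c ∧ ∀ X : ℕ, 2 ≤ X → ∀ A : Finset ℕ, A ⊆ indexed X →
      δ * (indexed X).card ≤ A.card → ∀ E : Finset (ℤ × ℕ),
      (∀ P ∈ E, Int.gcd P.1 P.2 = 1 ∧ |(P.1 : ℝ)| ≤ (X : ℝ) ^ (4 / 3 : ℝ) ∧ 1 ≤ P.2 ∧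
        (P.2 : ℝ) ≤ (X : ℝ) ^ (1 / 3 : ℝ) ∧
        ((A.filter (fun p : ℕ => Rep X ε P.1 P.2 p)).card : ℝ) < c * (X / Real.log X ^ 2)) →
      (E.card : ℝ) ≤ C * Real.log X := by
  obtain ⟨c₁, C₁, η, hc₁, hη, H⟩ := arbitrary ε hε
  obtain ⟨c₀, hc₀, y0, h0⟩ := card_lower
  have hlim : ∀ᶠ x : ℝ in atTop, Real.log x ^ (2 : ℝ) ≤ δ * c₀ * x ^ η := by
    have h1 := (isLittleO_log_rpow_rpow_atTop (2 : ℝ) hη).bound
      (show (0 : ℝ) < δ * c₀ by positivity)
    filter_upwards [h1, eventually_ge_atTop (1 : ℝ)] with x h2 h3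
    rw [Real.norm_eq_abs, Real.norm_eq_abs, abs_of_nonneg (Real.rpow_nonneg (Real.log_nonneg h3) _),
      abs_of_nonneg (Real.rpow_nonneg (by linarith) _)] at h2
    exact h2
  obtain ⟨X1, hX1⟩ := eventually_atTop.1 (tendsto_natCast_atTop_atTop.eventually hlim)
  set X0 : ℕ := max X1 y0 with hX0
  have hl2 : 0 < Real.log 2 := Real.log_pos (by norm_num)
  set C2 : ℝ := max C₁ 0 with hC2
  have hC20 : 0 ≤ C2 := le_max_right _ _
  refine ⟨c₁ * δ * c₀, C2 / (δ * c₀) + ((2 * X0 ^ 2 + 1) * X0 : ℕ) / Real.log 2,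
    by positivity, ?_⟩
  intro X hX A hA hAc E hE
  have hXR : (2 : ℝ) ≤ X := by exact_mod_cast hX
  have hX0' : (0 : ℝ) < X := by linarith
  have hL2 : Real.log 2 ≤ Real.log X := Real.log_le_log (by norm_num) hXR
  have hL : 0 < Real.log X := by linarith
  rcases Nat.lt_or_ge X X0 with hlt | hge
  · have hsub : E ⊆ Icc (-(X0 ^ 2 : ℤ)) (X0 ^ 2 : ℤ) ×ˢ Icc 1 X0 := by
      intro P hP
      obtain ⟨-, h2, h3, h4, -⟩ := hE P hP
      have hXX : (X : ℝ) ≤ X0 := by exact_mod_cast hlt.le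
      have h5 : (X : ℝ) ^ (4 / 3 : ℝ) ≤ (X0 : ℝ) ^ 2 := by
        calc (X : ℝ) ^ (4 / 3 : ℝ) ≤ (X : ℝ) ^ (2 : ℝ) :=
              Real.rpow_le_rpow_of_exponent_le (by linarith) (by norm_num)
          _ = (X : ℝ) ^ 2 := by rw [← Real.rpow_natCast]; norm_num
          _ ≤ (X0 : ℝ) ^ 2 := pow_le_pow_left₀ hX0'.le hXX 2
      have h6 : (X : ℝ) ^ (1 / 3 : ℝ) ≤ X0 := by
        calc (X : ℝ) ^ (1 / 3 : ℝ) ≤ (X : ℝ) ^ (1 : ℝ) :=
              Real.rpow_le_rpow_of_exponent_le (by linarith) (by norm_num)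
          _ = (X : ℝ) := Real.rpow_one _
          _ ≤ X0 := hXX
      have h7 := abs_le.1 (h2.trans h5)
      have h8 : (P.2 : ℝ) ≤ X0 := h4.trans h6
      rw [mem_product, mem_Icc, mem_Icc]
      refine ⟨⟨?_, ?_⟩, h3, by exact_mod_cast h8⟩
      · exact_mod_cast h7.1
      · exact_mod_cast h7.2
    have h1 : E.card ≤ (2 * X0 ^ 2 + 1) * X0 := by
      refine (card_le_card hsub).trans (le_of_eq ?_)
      rw [card_product, Int.card_Icc, Nat.card_Icc]
      congr 1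
      have : ((X0 : ℤ) ^ 2 + 1 - -(X0 ^ 2 : ℤ)) = ((2 * X0 ^ 2 + 1 : ℕ) : ℤ) := by
        push_cast
        ring
      rw [this, Int.toNat_natCast]
    have h2 : (E.card : ℝ) ≤ ((2 * X0 ^ 2 + 1) * X0 : ℕ) := by exact_mod_cast h1
    refine h2.trans ?_
    have h3 : (((2 * X0 ^ 2 + 1) * X0 : ℕ) : ℝ) =
        (((2 * X0 ^ 2 + 1) * X0 : ℕ) : ℝ) / Real.log 2 * Real.log 2 := by
      field_simp
    have h5 : (0 : ℝ) ≤ (((2 * X0 ^ 2 + 1) * X0 : ℕ) : ℝ) / Real.log 2 := by positivity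
    calc (((2 * X0 ^ 2 + 1) * X0 : ℕ) : ℝ)
        = (((2 * X0 ^ 2 + 1) * X0 : ℕ) : ℝ) / Real.log 2 * Real.log 2 := h3
      _ ≤ (((2 * X0 ^ 2 + 1) * X0 : ℕ) : ℝ) / Real.log 2 * Real.log X := by gcongr
      _ ≤ _ := by
        apply mul_le_mul_of_nonneg_right _ hL.le
        have : 0 ≤ C2 / (δ * c₀) := by positivity
        linarith
  · have hy : y0 ≤ X := le_trans (le_max_right _ _) hge
    have hx1 : X1 ≤ X := le_trans (le_max_left _ _) hge
    have h1 := h0 X hy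
    have h2 := hX1 X hx1
    rw [Real.rpow_two] at h2
    set L : ℝ := Real.log X ^ 2 with hLdef
    have hLpos : 0 < L := by positivity
    -- the size of `A`
    have h3 : δ * c₀ * X ≤ A.card * L := by
      calc δ * c₀ * X = δ * (c₀ * X) := by ring
        _ ≤ δ * ((indexed X).card * L) := by gcongr
        _ = δ * (indexed X).card * L := by ring
        _ ≤ A.card * L := by gcongr
    have h4 : (X : ℝ) ^ (1 - η) ≤ A.card := by
      have h5 : (X : ℝ) ^ (1 - η) * L ≤ A.card * L := by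
        calc (X : ℝ) ^ (1 - η) * L ≤ (X : ℝ) ^ (1 - η) * (δ * c₀ * (X : ℝ) ^ η) := by gcongr
          _ = δ * c₀ * ((X : ℝ) ^ (1 - η) * (X : ℝ) ^ η) := by ring
          _ = δ * c₀ * X := by
            rw [← Real.rpow_add hX0', sub_add_cancel, Real.rpow_one]
          _ ≤ _ := h3
      exact le_of_mul_le_mul_right h5 hLpos
    have hAp : (0 : ℝ) < A.card := lt_of_lt_of_le (Real.rpow_pos_of_pos hX0' _) h4
    have h6 : δ * c₀ * (X / L) ≤ A.card := by
      rw [← mul_div_assoc, div_le_iff₀ hLpos]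
      exact h3
    have h5 := H X hX A (fun p hp => indexed_prime (hA hp)) h4 E (by
      intro P hP
      obtain ⟨g1, g2, g3, g4, g5⟩ := hE P hP
      refine ⟨g1, g2, g3, g4, lt_of_lt_of_le g5 ?_⟩
      calc c₁ * δ * c₀ * (X / L) = c₁ * (δ * c₀ * (X / L)) := by ring
        _ ≤ c₁ * A.card := by gcongr)
    refine h5.trans ?_
    have h7 : (X : ℝ) / (A.card * Real.log X) ≤ Real.log X / (δ * c₀) := by
      rw [div_le_div_iff₀ (by positivity) (by positivity)]
      calc (X : ℝ) * (δ * c₀) = δ * c₀ * X := by ring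
        _ ≤ A.card * L := h3
        _ = Real.log X * (A.card * Real.log X) := by rw [hLdef]; ring
    calc C₁ * (X / (A.card * Real.log X)) ≤ C2 * (X / (A.card * Real.log X)) := by
          apply mul_le_mul_of_nonneg_right (le_max_left _ _) (by positivity)
      _ ≤ C2 * (Real.log X / (δ * c₀)) := by gcongr
      _ = C2 / (δ * c₀) * Real.log X := by ring
      _ ≤ _ := by
        apply mul_le_mul_of_nonneg_right _ hL.le
        have : 0 ≤ (((2 * X0 ^ 2 + 1) * X0 : ℕ) : ℝ) / Real.log 2 := by positivity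
        linarith

end Pool.Agent.Results.MP_5d7b92_nt.LinearEquations
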