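import Pool.Agent.R502.WD.Idx

/-!
# Sparse sets of summands in Goldbach's problem

The question asks whether every even number `N ≥ 6` is a sum `p + q` of primes such that `p` has
prime index. Here we bound the least such `p` from below, in the right order of magnitude.

1. For every `λ` there is `δ > 0` such that for every `A`, every large `X` and EVERY set `P` of at
   most `λ log X` integers up to `(log X) ^ A`, at least `δ X` of the even `N ≤ X` have no
   representation `N = p + q` with `p ∈ P` and `q` prime.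
2. In particular for every `λ`, for a positive proportion of the even `N ≤ X` all the primes `p` with
   prime index in the representations `N = p + q` are larger than `λ log X (log log X) ^ 2`. (There
   are about `λ log X` primes with prime index up to this bound, so that a constant `λ` is the right
   order.)
3. For `K` disjoint sets with together at most `λ K log X` elements and almost all `N`, a positive
   proportion of the sets contains no `p` with `N - p` prime.
4. In particular, for almost all `N` a positive proportion of the intervals `(i y, (i + 1) y]`,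
   `i < K`, `y = λ log X (log log X) ^ 2`, contains no prime `p` with prime index and `N - p` prime.
-/

set_option autoImplicit false

open Finset Filter

namespace Pool.Agent.Results.MP_5d7b92_nt.SparseSummands

/-- `p` is a prime and its index `π(p)` is prime. -/
def PrimeIndexed (p : ℕ) : Prop := p.Prime ∧ (Nat.primeCounting p).Prime

/-- `y = λ log X (log log X) ^ 2` -/
noncomputable def y (lam X : ℝ) : ℝ := lam * Real.log X * Real.log (Real.log X) ^ 2

open Classical in
/-- **Sparse sets of summands, and primes with prime index.** -/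
theorem result :
    (∀ lam : ℝ, 0 < lam → ∃ δ : ℝ, 0 < δ ∧ ∀ A : ℕ, ∃ X₀ : ℝ, ∀ X : ℝ, X₀ ≤ X →
      ∀ P : Finset ℕ, (P.card : ℝ) ≤ lam * Real.log X → (∀ p ∈ P, (p : ℝ) ≤ Real.log X ^ A) →
      δ * X ≤ (((Icc 1 ⌊X⌋₊).filter
        (fun N => Even N ∧ ∀ p ∈ P, ∀ q : ℕ, q.Prime → N ≠ p + q)).card : ℝ)) ∧
    (∀ lam : ℝ, 0 < lam → ∃ δ : ℝ, 0 < δ ∧ ∃ X₀ : ℝ, ∀ X : ℝ, X₀ ≤ X →
      δ * X ≤ (((Icc 1 ⌊X⌋₊).filter (fun N => Even N ∧ ∀ p q : ℕ, PrimeIndexed p → q.Prime →
        N = p + q → y lam X < p)).card : ℝ)) ∧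
    (∀ lam ε : ℝ, 0 < lam → 0 < ε → ∃ c : ℝ, 0 < c ∧ ∃ K₀ : ℕ, ∀ K : ℕ, K₀ ≤ K → ∀ A : ℕ,
      ∃ X₀ : ℝ, ∀ X : ℝ, X₀ ≤ X → ∀ B : ℕ → Finset ℕ,
      (∀ i < K, ∀ p ∈ B i, (p : ℝ) ≤ Real.log X ^ A) →
      (∀ i < K, ∀ j < K, i ≠ j → Disjoint (B i) (B j)) →
      ∑ i ∈ range K, ((B i).card : ℝ) ≤ lam * K * Real.log X →
      (((Icc 1 ⌊X⌋₊).filter (fun N => (((range K).filter
        (fun i : ℕ => ∀ p ∈ B i, ∀ q : ℕ, q.Prime → N ≠ p + q)).card : ℝ) < c * K)).card : ℝ) ≤
        ε * X) ∧
    (∀ lam ε : ℝ, 0 < lam → 0 < ε → ∃ c : ℝ, 0 < c ∧ ∃ K₀ : ℕ, ∀ K : ℕ, K₀ ≤ K →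
      ∃ X₀ : ℝ, ∀ X : ℝ, X₀ ≤ X →
      (((Icc 1 ⌊X⌋₊).filter (fun N => (((range K).filter
        (fun i : ℕ => ∀ p q : ℕ, PrimeIndexed p → q.Prime → N = p + q →
          ¬ ((i : ℝ) * y lam X < p ∧ (p : ℝ) ≤ (i + 1) * y lam X))).card : ℝ) < c * K)).card : ℝ)
        ≤ ε * X) := by
  refine ⟨?_, ?_, ?_, ?_⟩
  · intro lam hlam
    obtain ⟨δ, hδ, h⟩ := Pool.Agent.R502.WD.fin_one lam hlam
    refine ⟨δ, hδ, fun A => ?_⟩
    obtain ⟨X₀, hX₀⟩ := h A
    refine ⟨X₀, fun X hX P hP hPA => (hX₀ X hX P hP hPA).trans ?_⟩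
    apply Nat.cast_le.2
    apply card_le_card
    intro N hN
    rw [mem_filter] at hN ⊢
    refine ⟨hN.1, hN.2.1, fun p hp q hq hNpq => hN.2.2 p hp ?_⟩
    rw [hNpq, Nat.add_sub_cancel_left]
    exact hq
  · intro lam hlam
    obtain ⟨δ, hδ, h⟩ := Pool.Agent.R502.WD.fin_one (48 * lam) (by linarith)
    obtain ⟨X1, h1⟩ := h 2
    obtain ⟨X2, h2⟩ := Pool.Agent.R502.WD.card_idx_log lam hlam
    refine ⟨δ, hδ, max X1 (max X2 2), fun X hX => ?_⟩
    obtain ⟨h3, h4⟩ := h2 X ((le_max_left _ _).trans ((le_max_right _ _).trans hX))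
    have hX2 : 2 ≤ X := (le_max_right _ _).trans ((le_max_right _ _).trans hX)
    have hlog : 0 ≤ Real.log X := Real.log_nonneg (by linarith)
    have hy0 : 0 ≤ lam * Real.log X * Real.log (Real.log X) ^ 2 := by positivity
    refine (h1 X ((le_max_left _ _).trans hX)
      ((range (⌊lam * Real.log X * Real.log (Real.log X) ^ 2⌋₊ + 1)).filter
        Pool.Agent.R502.WD.Idx) h3 ?_).trans ?_
    · intro p hp
      rw [mem_filter, mem_range] at hp
      have h5 : (p : ℝ) ≤ lam * Real.log X * Real.log (Real.log X) ^ 2 :=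
        (Nat.le_floor_iff hy0).1 (by omega)
      exact h5.trans h4
    · apply Nat.cast_le.2
      apply card_le_card
      intro N hN
      rw [mem_filter] at hN ⊢
      refine ⟨hN.1, hN.2.1, fun p q hp hq hNpq => ?_⟩
      by_contra hlt
      rw [not_lt] at hlt
      apply hN.2.2 p
      · rw [mem_filter, mem_range]
        refine ⟨?_, hp⟩
        have := Nat.le_floor hlt
        unfold y at this
        omega
      · rw [hNpq, Nat.add_sub_cancel_left]
        exact hq
  · intro lam ε hlam hε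
    obtain ⟨c, hc, K₀, h⟩ := Pool.Agent.R502.WD.fin_blocks lam ε hlam hε
    refine ⟨c, hc, K₀, fun K hK A => ?_⟩
    obtain ⟨X₀, hX₀⟩ := h K hK A
    refine ⟨X₀, fun X hX B hB1 hB2 hB3 => le_trans ?_ (hX₀ X hX B hB1 hB2 hB3)⟩
    apply Nat.cast_le.2
    apply card_le_card
    intro N hN
    rw [mem_filter] at hN ⊢
    refine ⟨hN.1, lt_of_le_of_lt ?_ hN.2⟩
    apply Nat.cast_le.2
    apply card_le_card
    intro i hi
    rw [mem_filter] at hi ⊢
    refine ⟨hi.1, fun p hp q hq hNpq => hi.2 p hp ?_⟩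
    rw [hNpq, Nat.add_sub_cancel_left]
    exact hq
  · intro lam ε hlam hε
    obtain ⟨c, hc, K₀, h⟩ := Pool.Agent.R502.WD.fin_blocks (48 * lam) ε (by linarith) hε
    refine ⟨c, hc, K₀ + 1, fun K hK => ?_⟩
    obtain ⟨X1, h1⟩ := h K (by omega) 2
    have hK0 : (0 : ℝ) < K := by exact_mod_cast (by omega : 0 < K)
    obtain ⟨X2, h2⟩ := Pool.Agent.R502.WD.card_idx_log (K * lam) (by positivity)
    refine ⟨max X1 (max X2 2), fun X hX => ?_⟩
    obtain ⟨h3, h4⟩ := h2 X ((le_max_left _ _).trans ((le_max_right _ _).trans hX))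
    have hX2 : 2 ≤ X := (le_max_right _ _).trans ((le_max_right _ _).trans hX)
    have hlog : 0 ≤ Real.log X := Real.log_nonneg (by linarith)
    have hy0 : 0 ≤ K * lam * Real.log X * Real.log (Real.log X) ^ 2 := by positivity
    have hyy : 0 ≤ y lam X := by unfold y; positivity
    set R := (range (⌊K * lam * Real.log X * Real.log (Real.log X) ^ 2⌋₊ + 1)).filter
      Pool.Agent.R502.WD.Idx with hR
    set B : ℕ → Finset ℕ := fun i => R.filter
      (fun p : ℕ => (i : ℝ) * y lam X < p ∧ (p : ℝ) ≤ (i + 1) * y lam X) with hB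
    have hdis : ∀ i < K, ∀ j < K, i ≠ j → Disjoint (B i) (B j) := by
      intro i _ j _ hij
      rw [disjoint_left]
      intro p hp hq
      rw [hB] at hp hq
      simp only at hp hq
      rw [mem_filter] at hp hq
      rcases Nat.lt_or_gt_of_ne hij with hlt | hlt
      · have e1 : ((i : ℝ) + 1) ≤ j := by exact_mod_cast hlt
        have e2 := mul_le_mul_of_nonneg_right e1 hyy
        linarith [hp.2.2, hq.2.1]
      · have e1 : ((j : ℝ) + 1) ≤ i := by exact_mod_cast hlt
        have e2 := mul_le_mul_of_nonneg_right e1 hyy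
        linarith [hq.2.2, hp.2.1]
    refine le_trans ?_ (h1 X ((le_max_left _ _).trans hX) B ?_ hdis ?_)
    · apply Nat.cast_le.2
      apply card_le_card
      intro N hN
      rw [mem_filter] at hN ⊢
      refine ⟨hN.1, lt_of_le_of_lt ?_ hN.2⟩
      apply Nat.cast_le.2
      apply card_le_card
      intro i hi
      rw [mem_filter] at hi ⊢
      refine ⟨hi.1, fun p q hp hq hNpq hpi => hi.2 p ?_ ?_⟩
      · rw [hB]
        simp only
        rw [mem_filter, hR, mem_filter, mem_range]
        refine ⟨⟨?_, hp⟩, hpi⟩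
        have e1 : (p : ℝ) ≤ K * lam * Real.log X * Real.log (Real.log X) ^ 2 := by
          have e2 : ((i : ℝ) + 1) ≤ K := by exact_mod_cast mem_range.1 hi.1
          have e3 := mul_le_mul_of_nonneg_right e2 hyy
          have e4 : K * lam * Real.log X * Real.log (Real.log X) ^ 2 = K * y lam X := by
            unfold y
            ring
          rw [e4]
          exact hpi.2.trans e3
        have := Nat.le_floor e1
        omega
      · rw [hNpq, Nat.add_sub_cancel_left]
        exact hq
    · intro i _ p hp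
      rw [hB] at hp
      simp only at hp
      rw [mem_filter, hR, mem_filter, mem_range] at hp
      have h5 : (p : ℝ) ≤ K * lam * Real.log X * Real.log (Real.log X) ^ 2 :=
        (Nat.le_floor_iff hy0).1 (by omega)
      exact h5.trans h4
    · have h5 : ∑ i ∈ range K, (B i).card ≤ R.card := by
        rw [← card_biUnion]
        · apply card_le_card
          intro p hp
          rw [mem_biUnion] at hp
          obtain ⟨i, -, hi⟩ := hp
          exact (mem_filter.1 hi).1
        · intro i hi j hj hij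
          exact hdis i (mem_range.1 hi) j (mem_range.1 hj) hij
      have h6 : ∑ i ∈ range K, ((B i).card : ℝ) ≤ R.card := by exact_mod_cast h5
      calc _ ≤ (R.card : ℝ) := h6
        _ ≤ 48 * (K * lam) * Real.log X := h3
        _ = _ := by ring

end Pool.Agent.Results.MP_5d7b92_nt.SparseSummands
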